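import Pool.Agent.Lib_MP_a71bf8_lb.Pot

/-!
# MP_a71bf8_co: both values are at least `k / (10 log (8 k))` for all `n ≥ 2 k`
-/

set_option autoImplicit false

namespace Pool.Agent.MP_a71bf8_lb

open Finset Pool.Agent.MP_a71bf8_co

variable {n : ℕ}

theorem cov_mono {F : Finset (Finset (Fin n))} {A : Finset (Fin n)} (hF : ∀ B ∈ insert A F, B.Nonempty) :
    cov F ≤ cov (insert A F) := by
  have hne : {t | ∃ S : Finset (Fin n), S.card = t ∧ ∀ B ∈ insert A F, (S ∩ B).Nonempty}.Nonempty :=
    ⟨_, univ, rfl, fun B hB => by rw [univ_inter]; exact hF B hB⟩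
  obtain ⟨S, hS, hc⟩ := Nat.sInf_mem hne
  have h1 : S.card = cov (insert A F) := hS
  rw [← h1]
  exact Nat.sInf_le ⟨S, rfl, fun B hB => hc B (mem_insert_of_mem hB)⟩

theorem ne_insert {k : ℕ} (hk : 1 ≤ k) {F : Finset (Finset (Fin n))} (hF : ∀ B ∈ F, B.card = k)
    {A : Finset (Fin n)} (hA : A ∈ legal k F) : ∀ B ∈ insert A F, B.card = k := by
  intro B hB
  rcases mem_insert.1 hB with rfl | hB
  · exact (mem_legal.1 hA).1
  · exact hF B hB

theorem ne_of_card {k : ℕ} (hk : 1 ≤ k) {F : Finset (Finset (Fin n))} (hF : ∀ B ∈ F, B.card = k) :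
    ∀ B ∈ F, B.Nonempty := fun B hB => by
  rw [← Finset.card_pos, hF B hB]
  exact hk

theorem cov_le_value {k : ℕ} (hk : 1 ≤ k) (m : ℕ) : ∀ (b : Bool) (F : Finset (Finset (Fin n))),
    (∀ B ∈ F, B.card = k) → cov F ≤ value k m b F := by
  induction m with
  | zero => exact fun b F _ => le_rfl
  | succ m ih =>
    intro b F hF
    unfold value
    by_cases h : (legal k F).Nonempty
    · rw [dif_pos h]
      split_ifs
      · obtain ⟨A, hA⟩ := h
        refine le_trans ?_ (Finset.le_sup' _ hA)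
        exact (cov_mono (ne_of_card hk (ne_insert hk hF hA))).trans (ih false _ (ne_insert hk hF hA))
      · refine Finset.le_inf' _ _ fun A hA => ?_
        exact (cov_mono (ne_of_card hk (ne_insert hk hF hA))).trans (ih true _ (ne_insert hk hF hA))
    · rw [dif_neg h]

/-- a small potential forces large covers -/
theorem cov_of_Ph {k s : ℕ} (hk : 1 ≤ k) {θ : ℝ} (hθ : 0 < θ) (hθ1 : θ ≤ 1) {F : Finset (Finset (Fin n))}
    (hF : ∀ B ∈ F, B.card = k) (h : Ph s θ F < θ ^ s) : s + 1 ≤ cov F := by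
  classical
  have hne : {t | ∃ S : Finset (Fin n), S.card = t ∧ ∀ B ∈ F, (S ∩ B).Nonempty}.Nonempty :=
    ⟨_, univ, rfl, fun B hB => by rw [univ_inter]; exact ne_of_card hk hF B hB⟩
  obtain ⟨S, hS, hc⟩ := Nat.sInf_mem hne
  have h1 : S.card = cov F := hS
  by_contra hcon
  have hSs : S.card ≤ s := by omega
  have hmem : S ∩ UV F ∈ covs s F := by
    refine mem_covs.2 ⟨inter_subset_right, (card_le_card inter_subset_left).trans hSs, ?_⟩
    intro B hB
    obtain ⟨x, hx⟩ := hc B hB
    rw [mem_inter] at hx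
    exact ⟨x, mem_inter.2 ⟨mem_inter.2 ⟨hx.1, sub_UV hB hx.2⟩, hx.2⟩⟩
  have h2 : θ ^ (S ∩ UV F).card ≤ Ph s θ F := by
    unfold Ph
    exact Finset.single_le_sum (f := fun S : Finset (Fin n) => θ ^ S.card)
      (fun S _ => pow_nonneg hθ.le _) hmem
  have h3 : θ ^ s ≤ θ ^ (S ∩ UV F).card :=
    pow_le_pow_of_le_one hθ.le hθ1 ((card_le_card inter_subset_left).trans hSs)
  linarith

theorem pow_bound {k : ℕ} (hk : 1 ≤ k) : (1 + 1 / (8 * (k : ℝ))) ^ k ≤ 8 / 7 := by
  have hkr : (0 : ℝ) < k := by exact_mod_cast hk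
  have h1 : (1 : ℝ) + 1 / (8 * (k : ℝ)) ≤ Real.exp (1 / (8 * k)) := by
    have := Real.add_one_le_exp (1 / (8 * (k : ℝ)))
    linarith
  have h2 : (1 + 1 / (8 * (k : ℝ))) ^ k ≤ Real.exp (1 / (8 * k)) ^ k :=
    pow_le_pow_left₀ (by positivity) h1 k
  rw [← Real.exp_nat_mul] at h2
  have h3 : (k : ℝ) * (1 / (8 * k)) = 1 / 8 := by
    field_simp
  rw [h3] at h2
  refine h2.trans ?_
  have h4 := Real.add_one_le_exp (-(1 / 8 : ℝ))
  have h5 : Real.exp (1 / 8) * Real.exp (-(1 / 8)) = 1 := by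
    rw [← Real.exp_add]
    norm_num
  have h6 : 0 < Real.exp (1 / 8 : ℝ) := Real.exp_pos _
  nlinarith

/-- the strategy of Maximizer -/
theorem play {k s : ℕ} (hk : 1 ≤ k) (hkn : k ≤ n) (hs1 : 4 * ((1 + Real.log k) * s) ≤ k)
    (hs2 : 4 * (k * s) ≤ n) (m : ℕ) :
    ∀ (r : ℕ) (F : Finset (Finset (Fin n))), (∀ B ∈ F, B.card = k) → (legal k F).card ≤ m →
      (F.card + 2 * r ≤ k + 1 → (3 / 4) ^ r * Ph s (1 / (8 * (k : ℝ))) F < (1 / (8 * (k : ℝ))) ^ s →
        s + 1 ≤ value k m true F) ∧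
      (F.card + 2 * r ≤ k → 8 / 7 * ((3 / 4) ^ r * Ph s (1 / (8 * (k : ℝ))) F) <
        (1 / (8 * (k : ℝ))) ^ s → s + 1 ≤ value k m false F) := by
  set θ : ℝ := 1 / (8 * (k : ℝ)) with hθdef
  have hkr : (1 : ℝ) ≤ k := by exact_mod_cast hk
  have hθ : 0 < θ := by positivity
  have hθ1 : θ ≤ 1 := by
    rw [hθdef, div_le_one (by positivity)]
    linarith
  have hpk : (1 + θ) ^ k ≤ 8 / 7 := pow_bound hk
  have hθs : 0 < θ ^ s := by positivity
  -- if the potential is not small there is a good move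
  have hgood : ∀ F : Finset (Finset (Fin n)), (∀ B ∈ F, B.card = k) → F.card ≤ k →
      0 < Ph s θ F → ∃ G ∈ legal k F, Ph s θ (insert G F) ≤ 9 / 14 * Ph s θ F := by
    intro F hF hFk hP
    obtain ⟨G, hG, hG2⟩ := good_move hk hkn hθ.le hF hFk hs1 hs2 hP
    refine ⟨G, hG, ?_⟩
    have h1 := Ph_insert s hθ.le F G
    rw [(mem_legal.1 hG).1] at h1
    have h2 := mul_le_mul_of_nonneg_right hpk hP.le
    linarith
  have hany : ∀ F : Finset (Finset (Fin n)), ∀ B ∈ legal k F, Ph s θ (insert B F) ≤ 8 / 7 * Ph s θ F := by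
    intro F B hB
    have h1 := Ph_insert s hθ.le F B
    rw [(mem_legal.1 hB).1] at h1
    have h2 := mul_le_mul_of_nonneg_right hpk (Ph_nonneg (n := n) s hθ.le F)
    have h3 : 0 ≤ ∑ S ∈ (covs s F).filter (fun S => Disjoint B S), θ ^ S.card :=
      Finset.sum_nonneg fun _ _ => pow_nonneg hθ.le _
    linarith
  induction m with
  | zero =>
    intro r F hF hl
    have hl' : legal k F = ∅ := by
      rw [← Finset.card_eq_zero]
      omega
    have key : F.card ≤ k ∨ r = 0 → (3 / 4) ^ r * Ph s θ F < θ ^ s → s + 1 ≤ cov F := by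
      intro hr hP
      apply cov_of_Ph hk hθ hθ1 hF
      rcases hr with hr | hr
      · by_contra hcon
        have hP0 : 0 < Ph s θ F := by linarith
        obtain ⟨G, hG, -⟩ := hgood F hF hr hP0
        rw [hl'] at hG
        simp at hG
      · rw [hr, pow_zero, one_mul] at hP
        exact hP
    constructor
    · intro hc hP
      refine key ?_ hP
      omega
    · intro hc hP
      refine key (Or.inl (by omega)) ?_
      have : 0 ≤ (3 / 4 : ℝ) ^ r * Ph s θ F := mul_nonneg (by positivity) (Ph_nonneg s hθ.le F)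
      linarith
  | succ m ih =>
    intro r F hF hl
    constructor
    · intro hc hP
      by_cases hP0 : Ph s θ F < θ ^ s
      · exact (cov_of_Ph hk hθ hθ1 hF hP0).trans (cov_le_value hk _ _ _ hF)
      rw [not_lt] at hP0
      obtain ⟨r', rfl⟩ : ∃ r', r = r' + 1 := by
        rcases r with _ | r
        · rw [pow_zero, one_mul] at hP
          linarith
        · exact ⟨r, rfl⟩
      have hPpos : 0 < Ph s θ F := by linarith
      obtain ⟨G, hG, hG2⟩ := hgood F hF (by omega) hPpos
      unfold value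
      rw [dif_pos ⟨G, hG⟩, if_pos rfl]
      refine le_trans ?_ (Finset.le_sup' _ hG)
      refine (ih r' (insert G F) (ne_insert hk hF hG) ?_).2 ?_ ?_
      · have := legal_insert_card hG
        omega
      · have := Finset.card_insert_le G F
        omega
      · refine lt_of_le_of_lt ?_ hP
        rw [pow_succ]
        have h34 : (0 : ℝ) ≤ (3 / 4) ^ r' := by positivity
        have h1 := mul_le_mul_of_nonneg_left hG2 h34
        have h2 : 0 ≤ (3 / 4 : ℝ) ^ r' * Ph s θ F := mul_nonneg h34 hPpos.le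
        nlinarith
    · intro hc hP
      have hPh0 := Ph_nonneg (n := n) s hθ.le F
      have h34 : (0 : ℝ) ≤ (3 / 4) ^ r := by positivity
      unfold value
      by_cases hne : (legal k F).Nonempty
      · rw [dif_pos hne, if_neg (by simp)]
        refine Finset.le_inf' _ _ fun B hB => ?_
        refine (ih r (insert B F) (ne_insert hk hF hB) ?_).1 ?_ ?_
        · have := legal_insert_card hB
          omega
        · have := Finset.card_insert_le B F
          omega
        · refine lt_of_le_of_lt ?_ hP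
          have h1 := mul_le_mul_of_nonneg_left (hany F B hB) h34
          linarith
      · rw [dif_neg hne]
        apply cov_of_Ph hk hθ hθ1 hF
        by_contra hcon
        rw [not_lt] at hcon
        obtain ⟨G, hG, -⟩ := hgood F hF (by omega) (by linarith)
        exact hne ⟨G, hG⟩

theorem Ph_empty (s : ℕ) (θ : ℝ) : Ph (n := n) s θ ∅ = 1 := by
  have : covs (n := n) s ∅ = {∅} := by
    ext S
    rw [mem_covs, mem_singleton]
    constructor
    · rintro ⟨h, -, -⟩
      exact Finset.subset_empty.1 h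
    · rintro rfl
      exact ⟨empty_subset _, by simp, fun B hB => by simp at hB⟩
  unfold Ph
  rw [this, sum_singleton, card_empty, pow_zero]

theorem tau_pos {k : ℕ} (hk : 1 ≤ k) (hkn : k ≤ n) : 1 ≤ tauMax n k ∧ 1 ≤ tauMin n k := by
  have hpos : 0 < n.choose k := Nat.choose_pos hkn
  obtain ⟨m, hm⟩ : ∃ m, n.choose k = m + 1 := ⟨n.choose k - 1, by omega⟩
  have hne : (legal (n := n) k ∅).Nonempty := by
    rw [legal_empty, powersetCard_nonempty, card_univ, Fintype.card_fin]
    exact hkn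
  have hcov : ∀ A ∈ legal (n := n) k ∅, 1 ≤ cov (insert A (∅ : Finset (Finset (Fin n)))) := by
    intro A hA
    have hF : ∀ B ∈ insert A (∅ : Finset (Finset (Fin n))), B.Nonempty :=
      ne_of_card hk (ne_insert (F := ∅) hk (fun B hB => by simp at hB) hA)
    have hne : {t | ∃ S : Finset (Fin n), S.card = t ∧
        ∀ B ∈ insert A (∅ : Finset (Finset (Fin n))), (S ∩ B).Nonempty}.Nonempty :=
      ⟨_, univ, rfl, fun B hB => by rw [univ_inter]; exact hF B hB⟩
    obtain ⟨S, hS, hc⟩ := Nat.sInf_mem hne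
    have h1 : S.card = cov (insert A (∅ : Finset (Finset (Fin n)))) := hS
    rw [← h1]
    exact Finset.card_pos.2 ((hc A (mem_insert_self _ _)).mono inter_subset_left)
  unfold tauMax tauMin
  rw [hm]
  unfold value
  rw [dif_pos hne, dif_pos hne, if_pos rfl, if_neg (by simp)]
  constructor
  · obtain ⟨A, hA⟩ := hne
    refine le_trans ?_ (Finset.le_sup' _ hA)
    exact (hcov A hA).trans (cov_le_value hk _ _ _
      (ne_insert (F := ∅) hk (fun B hB => by simp at hB) hA))
  · refine Finset.le_inf' _ _ fun A hA => ?_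
    exact (hcov A hA).trans (cov_le_value hk _ _ _
      (ne_insert (F := ∅) hk (fun B hB => by simp at hB) hA))

theorem log_eight : (2 : ℝ) ≤ Real.log 8 := by
  rw [Real.le_log_iff_exp_le (by norm_num)]
  have h1 := Real.exp_one_lt_d9
  have h2 : Real.exp 2 = Real.exp 1 * Real.exp 1 := by
    rw [← Real.exp_add]
    norm_num
  rw [h2]
  have h3 := Real.exp_pos 1
  nlinarith

/-- both values are at least `k / (10 log (8 k))` -/
theorem final {k : ℕ} (hk : 1 ≤ k) (hn : 2 * k ≤ n) :
    (k : ℝ) / (10 * Real.log (8 * k)) ≤ tauMax n k ∧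
      (k : ℝ) / (10 * Real.log (8 * k)) ≤ tauMin n k := by
  have hkr : (1 : ℝ) ≤ k := by exact_mod_cast hk
  set L : ℝ := Real.log (8 * k) with hL
  have hLk : L = Real.log 8 + Real.log k := by
    rw [hL, Real.log_mul (by norm_num) (by linarith)]
  have hlogk : 0 ≤ Real.log k := Real.log_nonneg hkr
  have hL2 : 2 ≤ L := by
    have := log_eight
    linarith
  have hL0 : 0 < 10 * L := by linarith
  set s : ℕ := ⌊(k : ℝ) / (10 * L)⌋₊ with hs
  have hq0 : 0 ≤ (k : ℝ) / (10 * L) := by positivity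
  have hs1 : (s : ℝ) ≤ k / (10 * L) := Nat.floor_le hq0
  have hs2 : (k : ℝ) / (10 * L) < s + 1 := Nat.lt_floor_add_one _
  have hsL : s * L ≤ k / 10 := by
    rw [le_div_iff₀ hL0] at hs1
    linarith
  rcases Nat.eq_zero_or_pos s with h0 | hspos
  · rw [h0] at hs2
    push_cast at hs2
    obtain ⟨h1, h2⟩ := tau_pos (n := n) hk (by omega)
    have h1' : (1 : ℝ) ≤ tauMax n k := by exact_mod_cast h1
    have h2' : (1 : ℝ) ≤ tauMin n k := by exact_mod_cast h2
    constructor <;> linarith
  have hspos' : (1 : ℝ) ≤ s := by exact_mod_cast hspos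
  have hk20 : (20 : ℝ) ≤ k := by nlinarith
  by_cases hns : 4 * (k * s) ≤ n
  · -- the potential argument
    have hc1 : 4 * ((1 + Real.log k) * s) ≤ (k : ℝ) := by
      have : (1 + Real.log k) * s ≤ s * L := by
        rw [mul_comm]
        refine mul_le_mul_of_nonneg_left ?_ (by linarith)
        have := log_eight
        linarith
      nlinarith
    have hcard : (legal (n := n) k ∅).card ≤ n.choose k := by
      rw [legal_empty, card_powersetCard, card_univ, Fintype.card_fin]
    have hpl := play (n := n) hk (by omega) hc1 hns (n.choose k) (k / 2) ∅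
      (fun B hB => by simp at hB) hcard
    have hkey : 8 / 7 * ((3 / 4 : ℝ) ^ (k / 2) * Ph (n := n) s (1 / (8 * (k : ℝ))) ∅) <
        (1 / (8 * (k : ℝ))) ^ s := by
      rw [Ph_empty, mul_one]
      have e1 : (3 / 4 : ℝ) ^ (k / 2) ≤ Real.exp (-((k / 2 : ℕ) : ℝ) / 4) := by
        have h1 : (3 / 4 : ℝ) ≤ Real.exp (-(1 / 4)) := by
          have := Real.add_one_le_exp (-(1 / 4 : ℝ))
          linarith
        calc (3 / 4 : ℝ) ^ (k / 2) ≤ Real.exp (-(1 / 4)) ^ (k / 2) :=
              pow_le_pow_left₀ (by norm_num) h1 _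
          _ = Real.exp (-((k / 2 : ℕ) : ℝ) / 4) := by
              rw [← Real.exp_nat_mul]
              congr 1
              ring
      have e2 : (8 / 7 : ℝ) ≤ Real.exp (1 / 7) := by
        have := Real.add_one_le_exp (1 / 7 : ℝ)
        linarith
      have e3 : (1 / (8 * (k : ℝ))) ^ s = Real.exp (-(s * L)) := by
        rw [one_div, inv_pow, Real.exp_neg, Real.exp_nat_mul, hL, Real.exp_log (by linarith)]
      have e4 : ((k : ℝ) - 1) / 2 ≤ ((k / 2 : ℕ) : ℝ) := by
        have h1 : k ≤ 2 * (k / 2) + 1 := by omega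
        have h2 : (k : ℝ) ≤ 2 * ((k / 2 : ℕ) : ℝ) + 1 := by exact_mod_cast h1
        linarith
      rw [e3]
      calc 8 / 7 * (3 / 4 : ℝ) ^ (k / 2) ≤ Real.exp (1 / 7) * Real.exp (-((k / 2 : ℕ) : ℝ) / 4) :=
            mul_le_mul e2 e1 (by positivity) (Real.exp_pos _).le
        _ = Real.exp (1 / 7 + -((k / 2 : ℕ) : ℝ) / 4) := by rw [← Real.exp_add]
        _ < Real.exp (-(s * L)) := by
            apply Real.exp_lt_exp.2
            linarith
    have hkey' : (3 / 4 : ℝ) ^ (k / 2) * Ph (n := n) s (1 / (8 * (k : ℝ))) ∅ <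
        (1 / (8 * (k : ℝ))) ^ s := by
      have : 0 ≤ (3 / 4 : ℝ) ^ (k / 2) * Ph (n := n) s (1 / (8 * (k : ℝ))) ∅ := by
        rw [Ph_empty]
        positivity
      linarith
    have hc0 : (∅ : Finset (Finset (Fin n))).card + 2 * (k / 2) ≤ k := by
      rw [card_empty]
      omega
    have h1 : s + 1 ≤ tauMax n k := hpl.1 (by omega) hkey'
    have h2 : s + 1 ≤ tauMin n k := hpl.2 hc0 hkey
    have h1' : (s : ℝ) + 1 ≤ tauMax n k := by exact_mod_cast h1
    have h2' : (s : ℝ) + 1 ≤ tauMin n k := by exact_mod_cast h2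
    constructor <;> linarith
  · -- small `n`
    have hn0 : n < 4 * (k * s) := by omega
    have hnr : (n : ℝ) ≤ 4 * (k * s) := by
      have : n ≤ 4 * (k * s) := hn0.le
      exact_mod_cast this
    have hn2k : (2 : ℝ) * k ≤ n := by exact_mod_cast hn
    have hk0 : (0 : ℝ) < k := by linarith
    obtain ⟨h1, h2⟩ := lower_log (n := n) (k := k) hk hn
    have hlog : Real.log (2 * n + 2) ≤ 2 * L := by
      have h3 : 2 * (n : ℝ) + 2 ≤ (8 * k) ^ 2 := by nlinarith
      calc Real.log (2 * n + 2) ≤ Real.log ((8 * (k : ℝ)) ^ 2) := Real.log_le_log (by positivity) h3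
        _ = 2 * L := by
            rw [Real.log_pow, hL]
            norm_num
    have h4 : (n : ℝ) / k * Real.log (2 * n + 2) ≤ 4 / 5 * k := by
      have h5 : (n : ℝ) / k ≤ 4 * s := by
        rw [div_le_iff₀ hk0]
        linarith
      calc (n : ℝ) / k * Real.log (2 * n + 2) ≤ (4 * s) * (2 * L) :=
            mul_le_mul h5 hlog (Real.log_nonneg (by linarith)) (by positivity)
        _ = 8 * (s * L) := by ring
        _ ≤ 8 * (k / 10) := by linarith
        _ = _ := by ring
    have h6 : (k : ℝ) / (10 * L) ≤ k / 5 := by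
      apply div_le_div_of_nonneg_left hk0.le (by norm_num)
      linarith
    constructor <;> linarith

end Pool.Agent.MP_a71bf8_lb
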