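import Mathlib

/-!
# MP_a71bf8_co: cheap hitting sets (greedy weighted set cover) and cheap filling
-/

set_option autoImplicit false

namespace Pool.Agent.MP_a71bf8_lb

open Finset

variable {α : Type*} [DecidableEq α]

/-- double counting: some point `x` has `c x * (m k) ≤ C * d x` and `d x > 0` -/
theorem exists_good_point {F : Finset (Finset α)} {U : Finset α} {k : ℕ} (hk : 1 ≤ k)
    (hF : F.Nonempty) (hsub : ∀ B ∈ F, B ⊆ U) (hcard : ∀ B ∈ F, k ≤ B.card) (c : α → ℝ)
    (hc : ∀ x, 0 ≤ c x) :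
    ∃ x, 0 < (F.filter fun B => x ∈ B).card ∧
      c x * (F.card * k) ≤ (∑ y ∈ U, c y) * (F.filter fun B => x ∈ B).card := by
  classical
  by_contra hcon
  push Not at hcon
  have hsum : (F.card : ℝ) * k ≤ ∑ x ∈ U, ((F.filter fun B => x ∈ B).card : ℝ) := by
    have h1 : ∑ x ∈ U, (F.filter fun B => x ∈ B).card = ∑ B ∈ F, B.card := by
      simp_rw [Finset.card_filter]
      rw [Finset.sum_comm]
      refine Finset.sum_congr rfl fun B hB => ?_
      rw [← Finset.card_filter]
      congr 1
      rw [Finset.filter_mem_eq_inter]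
      exact Finset.inter_eq_right.2 (hsub B hB)
    have h2 : F.card * k ≤ ∑ x ∈ U, (F.filter fun B => x ∈ B).card := by
      rw [h1]
      calc F.card * k = ∑ _B ∈ F, k := by rw [Finset.sum_const, smul_eq_mul]
        _ ≤ _ := Finset.sum_le_sum hcard
    exact_mod_cast h2
  set C : ℝ := ∑ y ∈ U, c y with hC
  have hC0 : 0 ≤ C := Finset.sum_nonneg fun y _ => hc y
  obtain ⟨B0, hB0⟩ := hF
  obtain ⟨x0, hx0⟩ : B0.Nonempty := by
    rw [← Finset.card_pos]
    have := hcard B0 hB0
    omega
  have hx0U : x0 ∈ U := hsub B0 hB0 hx0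
  have hle : ∀ x ∈ U, C * ((F.filter fun B => x ∈ B).card : ℝ) ≤ c x * (F.card * k) := by
    intro x _
    by_cases h : 0 < (F.filter fun B => x ∈ B).card
    · exact (hcon x h).le
    · have h0 : (F.filter fun B => x ∈ B).card = 0 := by omega
      rw [h0, Nat.cast_zero, mul_zero]
      exact mul_nonneg (hc x) (by positivity)
  have hlt : C * ((F.filter fun B => x0 ∈ B).card : ℝ) < c x0 * (F.card * k) :=
    hcon x0 (Finset.card_pos.2 ⟨B0, Finset.mem_filter.2 ⟨hB0, hx0⟩⟩)
  have h3 : ∑ x ∈ U, C * ((F.filter fun B => x ∈ B).card : ℝ) < ∑ x ∈ U, c x * (F.card * k) :=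
    Finset.sum_lt_sum hle ⟨x0, hx0U, hlt⟩
  rw [← Finset.mul_sum, ← Finset.sum_mul, ← hC] at h3
  have h4 : C * (F.card * k) ≤ C * ∑ x ∈ U, ((F.filter fun B => x ∈ B).card : ℝ) :=
    mul_le_mul_of_nonneg_left hsum hC0
  linarith

/-- the greedy hitting set -/
theorem greedy {U : Finset α} {k : ℕ} (hk : 1 ≤ k) (c : α → ℝ) (hc : ∀ x, 0 ≤ c x) (m : ℕ) :
    ∀ F : Finset (Finset α), F.card = m → (∀ B ∈ F, B ⊆ U) → (∀ B ∈ F, k ≤ B.card) →
      ∃ T : Finset α, T.card ≤ m ∧ (∀ B ∈ F, (T ∩ B).Nonempty) ∧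
        ∑ x ∈ T, c x ≤ (1 + Real.log m) * (∑ y ∈ U, c y) / k := by
  classical
  induction m using Nat.strong_induction_on with
  | _ m ih =>
  intro F hm hsub hcard
  set C : ℝ := ∑ y ∈ U, c y with hC
  have hC0 : 0 ≤ C := Finset.sum_nonneg fun y _ => hc y
  have hkr : (0 : ℝ) < k := by exact_mod_cast hk
  rcases Nat.eq_zero_or_pos m with rfl | hm0
  · refine ⟨∅, by simp, fun B hB => ?_, ?_⟩
    · rw [Finset.card_eq_zero.1 hm] at hB
      simp at hB
    · rw [Finset.sum_empty, Nat.cast_zero, Real.log_zero, add_zero, one_mul]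
      positivity
  have hFne : F.Nonempty := Finset.card_pos.1 (by omega)
  obtain ⟨x, hx1, hx2⟩ := exists_good_point hk hFne hsub hcard c hc
  rw [← hC, hm] at hx2
  set d := (F.filter fun B => x ∈ B).card with hd
  have hmr : (0 : ℝ) < m := by exact_mod_cast hm0
  have hcx : c x ≤ (d / m) * C / k := by
    rw [le_div_iff₀ hkr, div_mul_eq_mul_div, le_div_iff₀ hmr]
    calc c x * k * m = c x * (m * k) := by ring
      _ ≤ C * d := hx2
      _ = d * C := mul_comm _ _
  have hsplit : d + (F.filter fun B => x ∉ B).card = m := by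
    rw [hd, Finset.card_filter_add_card_filter_not, hm]
  have hlog0 : 0 ≤ Real.log m := Real.log_nonneg (by exact_mod_cast hm0)
  by_cases hd' : (F.filter fun B => x ∉ B).card = 0
  · refine ⟨{x}, by simp; omega, fun B hB => ?_, ?_⟩
    · have : B ∉ F.filter fun B => x ∉ B := by
        rw [Finset.card_eq_zero.1 hd']
        simp
      rw [Finset.mem_filter, not_and, not_not] at this
      exact ⟨x, Finset.mem_inter.2 ⟨Finset.mem_singleton_self x, this hB⟩⟩
    · rw [Finset.sum_singleton]
      have hdm : (d : ℝ) = m := by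
        have : d = m := by omega
        exact_mod_cast this
      rw [hdm, div_self hmr.ne'] at hcx
      refine hcx.trans ?_
      refine div_le_div_of_nonneg_right ?_ hkr.le
      nlinarith
  · set m' := (F.filter fun B => x ∉ B).card with hm'
    have hm'lt : m' < m := by omega
    obtain ⟨T, hT1, hT2, hT3⟩ := ih m' hm'lt (F.filter fun B => x ∉ B) rfl
      (fun B hB => hsub B (Finset.mem_filter.1 hB).1) (fun B hB => hcard B (Finset.mem_filter.1 hB).1)
    refine ⟨insert x T, (Finset.card_insert_le _ _).trans (by omega), fun B hB => ?_, ?_⟩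
    · by_cases hxB : x ∈ B
      · exact ⟨x, Finset.mem_inter.2 ⟨Finset.mem_insert_self _ _, hxB⟩⟩
      · obtain ⟨y, hy⟩ := hT2 B (Finset.mem_filter.2 ⟨hB, hxB⟩)
        exact ⟨y, Finset.mem_inter.2 ⟨Finset.mem_insert_of_mem (Finset.mem_inter.1 hy).1,
          (Finset.mem_inter.1 hy).2⟩⟩
    · have hm'r : (0 : ℝ) < m' := by
        have : 0 < m' := by omega
        exact_mod_cast this
      have h1 : ∑ y ∈ insert x T, c y ≤ c x + ∑ y ∈ T, c y := by
        by_cases hxT : x ∈ T
        · rw [Finset.insert_eq_of_mem hxT]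
          linarith [hc x]
        · rw [Finset.sum_insert hxT]
      have h2 : Real.log m' ≤ Real.log m - d / m := by
        have h3 := Real.log_le_sub_one_of_pos (x := (m' : ℝ) / m) (by positivity)
        rw [Real.log_div hm'r.ne' hmr.ne'] at h3
        have h4 : (m' : ℝ) = m - d := by
          have : ((d + m' : ℕ) : ℝ) = m := by exact_mod_cast hsplit
          push_cast at this
          linarith
        have h5 : (m' : ℝ) / m - 1 = - (d / m) := by
          rw [h4]
          field_simp
          ring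
        linarith
      calc ∑ y ∈ insert x T, c y ≤ c x + ∑ y ∈ T, c y := h1
        _ ≤ (d / m) * C / k + (1 + Real.log m') * C / k := add_le_add hcx hT3
        _ = (d / m + 1 + Real.log m') * C / k := by ring
        _ ≤ (1 + Real.log m) * C / k := by
            refine div_le_div_of_nonneg_right (mul_le_mul_of_nonneg_right ?_ hC0) hkr.le
            linarith

/-- `j` points of `X` of total cost at most `j / |X|` of the cost of `X` -/
theorem cheap (c : α → ℝ) (hc : ∀ x, 0 ≤ c x) (j : ℕ) (d : ℕ) : ∀ X : Finset α, X.card = j + d →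
    ∃ U ⊆ X, U.card = j ∧ (X.card : ℝ) * ∑ x ∈ U, c x ≤ j * ∑ x ∈ X, c x := by
  classical
  induction d with
  | zero =>
    intro X hX
    refine ⟨X, Finset.Subset.refl _, by omega, ?_⟩
    rw [show (X.card : ℝ) = j by exact_mod_cast (by omega : X.card = j)]
  | succ d ih =>
    intro X hX
    have hne : X.Nonempty := Finset.card_pos.1 (by omega)
    obtain ⟨x, hx, hmax⟩ := Finset.exists_max_image X c hne
    have hX' : (X.erase x).card = j + d := by
      rw [Finset.card_erase_of_mem hx]
      omega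
    obtain ⟨U, hU1, hU2, hU3⟩ := ih (X.erase x) hX'
    refine ⟨U, hU1.trans (Finset.erase_subset _ _), hU2, ?_⟩
    have h1 : ∑ y ∈ X, c y = c x + ∑ y ∈ X.erase x, c y := (Finset.add_sum_erase X c hx).symm
    have h2 : ∑ y ∈ X, c y ≤ X.card * c x := by
      calc ∑ y ∈ X, c y ≤ ∑ _y ∈ X, c x := Finset.sum_le_sum hmax
        _ = _ := by rw [Finset.sum_const, nsmul_eq_mul]
    have hXr : (X.card : ℝ) = (X.erase x).card + 1 := by
      rw [hX', hX]
      push_cast
      ring
    rcases Nat.eq_zero_or_pos (j + d) with h0 | h0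
    · have hj : j = 0 := by omega
      have hU : U = ∅ := by
        rw [← Finset.card_eq_zero]
        omega
      rw [hU, hj]
      simp
    set N : ℝ := ((X.erase x).card : ℝ) with hN
    have hN0 : 0 < N := by
      rw [hN, hX']
      exact_mod_cast h0
    have hS0 : 0 ≤ ∑ y ∈ X.erase x, c y := Finset.sum_nonneg fun y _ => hc y
    have hj0 : (0 : ℝ) ≤ j := Nat.cast_nonneg j
    -- (N + 1) * SU ≤ j (c x + S'), N * SU ≤ j S', S' ≤ N c x
    have h3 : ∑ y ∈ X.erase x, c y ≤ N * c x := by
      rw [h1, hXr] at h2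
      linarith
    rw [hXr, h1]
    have h4 : N * ((N + 1) * ∑ y ∈ U, c y) ≤ N * (j * (c x + ∑ y ∈ X.erase x, c y)) := by
      calc N * ((N + 1) * ∑ y ∈ U, c y) = (N + 1) * (N * ∑ y ∈ U, c y) := by ring
        _ ≤ (N + 1) * (j * ∑ y ∈ X.erase x, c y) := mul_le_mul_of_nonneg_left hU3 (by linarith)
        _ = j * (N * ∑ y ∈ X.erase x, c y + ∑ y ∈ X.erase x, c y) := by ring
        _ ≤ j * (N * ∑ y ∈ X.erase x, c y + N * c x) :=
            mul_le_mul_of_nonneg_left (by linarith) hj0
        _ = _ := by ring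
    exact le_of_mul_le_mul_left h4 hN0

end Pool.Agent.MP_a71bf8_lb
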