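import Pool.Agent.Lib_MP_a71bf8_co.Arith
import Pool.Agent.Lib_MP_a71bf8_lb.Hit

/-!
# MP_a71bf8_co: the potential `Ph` = weighted number of the small covers inside the union

`Ph s θ F = ∑ θ ^ |S|` over the sets `S` inside the union of `F` with at most `s` elements which
cover `F`.
-/

set_option autoImplicit false

namespace Pool.Agent.MP_a71bf8_lb

open Finset Pool.Agent.MP_a71bf8_co

variable {n : ℕ}

/-- the union of the family -/
def UV (F : Finset (Finset (Fin n))) : Finset (Fin n) := F.biUnion id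

open Classical in
/-- the covers of size at most `s` inside the union -/
noncomputable def covs (s : ℕ) (F : Finset (Finset (Fin n))) : Finset (Finset (Fin n)) :=
  (UV F).powerset.filter fun S => S.card ≤ s ∧ Cov F S

/-- the potential -/
noncomputable def Ph (s : ℕ) (θ : ℝ) (F : Finset (Finset (Fin n))) : ℝ := ∑ S ∈ covs s F, θ ^ S.card

theorem mem_covs {s : ℕ} {F : Finset (Finset (Fin n))} {S : Finset (Fin n)} :
    S ∈ covs s F ↔ S ⊆ UV F ∧ S.card ≤ s ∧ Cov F S := by
  classical
  unfold covs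
  simp only [mem_filter, mem_powerset]

theorem sub_UV {F : Finset (Finset (Fin n))} {B : Finset (Fin n)} (hB : B ∈ F) : B ⊆ UV F :=
  fun _ hx => mem_biUnion.2 ⟨B, hB, hx⟩

theorem UV_insert (F : Finset (Finset (Fin n))) (G : Finset (Fin n)) :
    UV (insert G F) = G ∪ UV F := by
  unfold UV
  rw [biUnion_insert]
  rfl

theorem Ph_nonneg (s : ℕ) {θ : ℝ} (hθ : 0 ≤ θ) (F : Finset (Finset (Fin n))) : 0 ≤ Ph s θ F :=
  Finset.sum_nonneg fun _ _ => pow_nonneg hθ _

/-- how the potential changes when `G` is claimed -/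
theorem Ph_insert (s : ℕ) {θ : ℝ} (hθ : 0 ≤ θ) (F : Finset (Finset (Fin n))) (G : Finset (Fin n)) :
    Ph s θ (insert G F) ≤ (1 + θ) ^ G.card * Ph s θ F -
      ∑ S ∈ (covs s F).filter (fun S => Disjoint G S), θ ^ S.card := by
  classical
  set V := UV F with hV
  set D : Finset (Fin n) := G \ V with hD
  -- the pairs
  set P : Finset (Finset (Fin n) × Finset (Fin n)) := covs s F ×ˢ D.powerset with hP
  set Bad : Finset (Finset (Fin n) × Finset (Fin n)) :=
    ((covs s F).filter (fun S => Disjoint G S)) ×ˢ {∅} with hBad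
  have hBadP : Bad ⊆ P := by
    refine Finset.product_subset_product (Finset.filter_subset _ _) ?_
    rw [Finset.singleton_subset_iff]
    exact Finset.empty_mem_powerset _
  have hmap : ∀ S ∈ covs s (insert G F), (S ∩ V, S \ V) ∈ P \ Bad := by
    intro S hS
    obtain ⟨h1, h2, h3⟩ := mem_covs.1 hS
    rw [UV_insert] at h1
    have hc : Cov F (S ∩ V) := by
      intro B hB
      obtain ⟨x, hx⟩ := h3 B (mem_insert_of_mem hB)
      rw [mem_inter] at hx
      exact ⟨x, mem_inter.2 ⟨mem_inter.2 ⟨hx.1, sub_UV hB hx.2⟩, hx.2⟩⟩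
    refine mem_sdiff.2 ⟨mem_product.2 ⟨mem_covs.2 ⟨inter_subset_right, ?_, hc⟩, ?_⟩, ?_⟩
    · exact (card_le_card inter_subset_left).trans h2
    · rw [mem_powerset]
      intro x hx
      rw [mem_sdiff] at hx
      rcases mem_union.1 (h1 hx.1) with h | h
      · exact mem_sdiff.2 ⟨h, hx.2⟩
      · exact absurd h hx.2
    · intro hb
      rw [hBad, mem_product, mem_filter, mem_singleton] at hb
      obtain ⟨⟨-, hb1⟩, hb2⟩ := hb
      simp only at hb1 hb2
      obtain ⟨x, hx⟩ := h3 G (mem_insert_self _ _)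
      rw [mem_inter] at hx
      have hxV : x ∈ V := by
        by_contra hxV
        have : x ∈ S \ V := mem_sdiff.2 ⟨hx.1, hxV⟩
        rw [hb2] at this
        simp at this
      exact Finset.disjoint_left.1 hb1 hx.2 (mem_inter.2 ⟨hx.1, hxV⟩)
  have hinj : Set.InjOn (fun S : Finset (Fin n) => (S ∩ V, S \ V)) (covs s (insert G F)) := by
    intro S _ S' _ h
    simp only [Prod.mk.injEq] at h
    have hu : ∀ R : Finset (Fin n), (R ∩ V) ∪ (R \ V) = R := by
      intro R
      ext x
      simp only [mem_union, mem_inter, mem_sdiff]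
      tauto
    rw [← hu S, ← hu S', h.1, h.2]
  set w : Finset (Fin n) × Finset (Fin n) → ℝ := fun p => θ ^ p.1.card * θ ^ p.2.card with hw
  have hw0 : ∀ p, 0 ≤ w p := fun p => by positivity
  have e1 : Ph s θ (insert G F) = ∑ p ∈ (covs s (insert G F)).image
      (fun S : Finset (Fin n) => (S ∩ V, S \ V)), w p := by
    rw [Finset.sum_image (fun x hx y hy h => hinj hx hy h)]
    unfold Ph
    refine Finset.sum_congr rfl fun S _ => ?_
    rw [hw]
    simp only
    rw [← pow_add, card_inter_add_card_sdiff]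
  have e2 : ∑ p ∈ (covs s (insert G F)).image
      (fun S : Finset (Fin n) => (S ∩ V, S \ V)), w p ≤ ∑ p ∈ P \ Bad, w p := by
    refine Finset.sum_le_sum_of_subset_of_nonneg ?_ fun p _ _ => hw0 p
    intro p hp
    obtain ⟨S, hS, rfl⟩ := mem_image.1 hp
    exact hmap S hS
  have e3 : ∑ p ∈ P \ Bad, w p = ∑ p ∈ P, w p - ∑ p ∈ Bad, w p := by
    rw [← Finset.sum_sdiff hBadP]
    ring
  have e4 : ∑ p ∈ P, w p = Ph s θ F * (1 + θ) ^ D.card := by
    rw [hP, Finset.sum_product, hw]
    simp only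
    unfold Ph
    rw [Finset.sum_mul]
    refine Finset.sum_congr rfl fun S _ => ?_
    rw [← Finset.mul_sum]
    congr 1
    have := Finset.sum_pow_mul_eq_add_pow θ (1 : ℝ) D
    simp only [one_pow, mul_one] at this
    rw [this, add_comm]
  have e5 : ∑ p ∈ Bad, w p = ∑ S ∈ (covs s F).filter (fun S => Disjoint G S), θ ^ S.card := by
    rw [hBad, Finset.sum_product, hw]
    simp
  have e6 : (1 + θ) ^ D.card ≤ (1 + θ) ^ G.card :=
    pow_le_pow_right₀ (by linarith) (card_le_card sdiff_subset)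
  have h0 := Ph_nonneg (n := n) s hθ F
  rw [e1]
  refine e2.trans ?_
  rw [e3, e4, e5]
  have := mul_le_mul_of_nonneg_left e6 h0
  linarith

/-- the weight of a point -/
noncomputable def Wt (s : ℕ) (θ : ℝ) (F : Finset (Finset (Fin n))) (x : Fin n) : ℝ :=
  ∑ S ∈ (covs s F).filter (fun S => x ∈ S), θ ^ S.card

theorem Wt_nonneg (s : ℕ) {θ : ℝ} (hθ : 0 ≤ θ) (F : Finset (Finset (Fin n))) (x : Fin n) :
    0 ≤ Wt s θ F x := Finset.sum_nonneg fun _ _ => pow_nonneg hθ _

theorem sum_Wt (s : ℕ) {θ : ℝ} (hθ : 0 ≤ θ) (F : Finset (Finset (Fin n))) :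
    ∑ x, Wt s θ F x ≤ s * Ph s θ F := by
  classical
  unfold Wt Ph
  simp_rw [Finset.sum_filter]
  rw [Finset.sum_comm, Finset.mul_sum]
  refine Finset.sum_le_sum fun S hS => ?_
  rw [← Finset.sum_filter, Finset.sum_const, nsmul_eq_mul]
  refine mul_le_mul_of_nonneg_right ?_ (pow_nonneg hθ _)
  have : (univ.filter fun x => x ∈ S) = S := by
    ext x
    simp
  rw [this]
  exact_mod_cast (mem_covs.1 hS).2.1

theorem touch_le (s : ℕ) {θ : ℝ} (hθ : 0 ≤ θ) (F : Finset (Finset (Fin n))) (G : Finset (Fin n)) :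
    Ph s θ F - ∑ S ∈ (covs s F).filter (fun S => Disjoint G S), θ ^ S.card ≤
      ∑ x ∈ G, Wt s θ F x := by
  classical
  have h1 : Ph s θ F - ∑ S ∈ (covs s F).filter (fun S => Disjoint G S), θ ^ S.card =
      ∑ S ∈ (covs s F).filter (fun S => ¬ Disjoint G S), θ ^ S.card := by
    unfold Ph
    rw [← Finset.sum_filter_add_sum_filter_not (covs s F) (fun S => Disjoint G S)]
    ring
  rw [h1]
  unfold Wt
  simp_rw [Finset.sum_filter]
  rw [Finset.sum_comm]
  refine Finset.sum_le_sum fun S _ => ?_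
  by_cases h : Disjoint G S
  · rw [if_neg (not_not.2 h)]
    refine Finset.sum_nonneg fun x _ => ?_
    split_ifs
    · exact pow_nonneg hθ _
    · exact le_rfl
  · rw [if_pos h]
    obtain ⟨x, hx⟩ := Finset.not_disjoint_iff.1 h
    refine le_trans ?_ (Finset.single_le_sum (f := fun y => if y ∈ S then θ ^ S.card else 0)
      (fun y _ => ?_) hx.1)
    · rw [if_pos hx.2]
    · split_ifs
      · exact pow_nonneg hθ _
      · exact le_rfl

/-- Maximizer has a legal move which misses half of the weight. -/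
theorem good_move {k s : ℕ} {θ : ℝ} (hk : 1 ≤ k) (hkn : k ≤ n) (hθ : 0 ≤ θ)
    {F : Finset (Finset (Fin n))} (hF : ∀ B ∈ F, B.card = k) (hFk : F.card ≤ k)
    (hs1 : 4 * ((1 + Real.log k) * s) ≤ k) (hs2 : 4 * (k * s) ≤ n) (hP : 0 < Ph s θ F) :
    ∃ G ∈ legal k F, Ph s θ F / 2 ≤
      ∑ S ∈ (covs s F).filter (fun S => Disjoint G S), θ ^ S.card := by
  classical
  set c := Wt s θ F with hc
  have hc0 : ∀ x, 0 ≤ c x := Wt_nonneg s hθ F
  set C := ∑ x, c x with hC
  have hC0 : 0 ≤ C := Finset.sum_nonneg fun x _ => hc0 x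
  have hCs : C ≤ s * Ph s θ F := sum_Wt s hθ F
  have hkr : (0 : ℝ) < k := by exact_mod_cast hk
  have hnr : (0 : ℝ) < n := by exact_mod_cast (by omega : 0 < n)
  obtain ⟨T, hT1, hT2, hT3⟩ := greedy hk c hc0 F.card F rfl (U := univ)
    (fun B _ => subset_univ B) (fun B hB => (hF B hB).ge)
  rw [← hC] at hT3
  have hTk : T.card ≤ k := hT1.trans hFk
  have hTc : Tᶜ.card = (k - T.card) + (n - k) := by
    rw [card_compl, Fintype.card_fin]
    omega
  obtain ⟨U, hU1, hU2, hU3⟩ := cheap c hc0 (k - T.card) (n - k) Tᶜ hTc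
  have hdis : Disjoint T U := by
    rw [Finset.disjoint_left]
    intro x hx hxU
    exact (mem_compl.1 (hU1 hxU)) hx
  set G := T ∪ U with hG
  have hGk : G.card = k := by
    rw [hG, card_union_of_disjoint hdis, hU2]
    omega
  have hhit : ∀ B ∈ F, (G ∩ B).Nonempty := fun B hB =>
    (hT2 B hB).mono (inter_subset_inter_right subset_union_left)
  -- cost of T
  have hT4 : ∑ x ∈ T, c x ≤ Ph s θ F / 4 := by
    refine hT3.trans ?_
    rw [div_le_iff₀ hkr]
    have hlog : Real.log F.card ≤ Real.log k := by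
      rcases Nat.eq_zero_or_pos F.card with h0 | h0
      · rw [h0, Nat.cast_zero, Real.log_zero]
        exact Real.log_nonneg (by exact_mod_cast hk)
      · exact Real.log_le_log (by exact_mod_cast h0) (by exact_mod_cast hFk)
    have hlog0 : 0 ≤ Real.log k := Real.log_nonneg (by exact_mod_cast hk)
    calc (1 + Real.log F.card) * C ≤ (1 + Real.log k) * C :=
          mul_le_mul_of_nonneg_right (by linarith) hC0
      _ ≤ (1 + Real.log k) * (s * Ph s θ F) := mul_le_mul_of_nonneg_left hCs (by linarith)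
      _ = ((1 + Real.log k) * s) * Ph s θ F := by ring
      _ ≤ (k / 4) * Ph s θ F := mul_le_mul_of_nonneg_right (by linarith) hP.le
      _ = _ := by ring
  -- cost of U
  have hU4 : ∑ x ∈ U, c x ≤ Ph s θ F / 4 := by
    have hX : ∑ x ∈ Tᶜ, c x ≤ C := Finset.sum_le_univ_sum_of_nonneg hc0
    have hXn : (Tᶜ.card : ℝ) = n - T.card := by
      have : Tᶜ.card + T.card = n := by
        rw [card_compl, Fintype.card_fin]
        have := card_le_univ T
        rw [Fintype.card_fin] at this
        omega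
      have h2 : ((Tᶜ.card + T.card : ℕ) : ℝ) = n := by exact_mod_cast this
      push_cast at h2
      linarith
    have hkT : ((k - T.card : ℕ) : ℝ) = k - T.card := by
      rw [Nat.cast_sub hTk]
    rw [hXn, hkT] at hU3
    set a : ℝ := (T.card : ℝ) with ha
    have ha0 : 0 ≤ a := Nat.cast_nonneg _
    have hak : a ≤ k := Nat.cast_le.2 hTk
    have hkn' : (k : ℝ) ≤ n := by exact_mod_cast hkn
    have hU0 : 0 ≤ ∑ x ∈ U, c x := Finset.sum_nonneg fun x _ => hc0 x
    have hs2' : 4 * ((k : ℝ) * s) ≤ n := by exact_mod_cast hs2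
    rcases eq_or_lt_of_le hak with hak' | hak'
    · -- a = k : U is empty
      have : U = ∅ := by
        rw [← Finset.card_eq_zero, hU2]
        have : T.card = k := Nat.cast_injective (R := ℝ) (by rw [← ha]; exact hak')
        omega
      rw [this, Finset.sum_empty]
      linarith
    · have hna : 0 < (n : ℝ) - a := by linarith
      -- n * SU ≤ k * C
      have h1 : (n : ℝ) * ∑ x ∈ U, c x ≤ k * C := by
        have h2 : (n - a) * ((n : ℝ) * ∑ x ∈ U, c x) ≤ (n - a) * (k * C) := by
          calc (n - a) * ((n : ℝ) * ∑ x ∈ U, c x) = n * ((n - a) * ∑ x ∈ U, c x) := by ring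
            _ ≤ n * ((k - a) * ∑ x ∈ Tᶜ, c x) := mul_le_mul_of_nonneg_left hU3 hnr.le
            _ ≤ n * ((k - a) * C) :=
                mul_le_mul_of_nonneg_left (mul_le_mul_of_nonneg_left hX (by linarith)) hnr.le
            _ = (n * (k - a)) * C := by ring
            _ ≤ ((n - a) * k) * C := by
                refine mul_le_mul_of_nonneg_right ?_ hC0
                nlinarith
            _ = _ := by ring
        exact le_of_mul_le_mul_left h2 hna
      have h3 : (n : ℝ) * ∑ x ∈ U, c x ≤ n * (Ph s θ F / 4) := by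
        calc (n : ℝ) * ∑ x ∈ U, c x ≤ k * C := h1
          _ ≤ k * (s * Ph s θ F) := mul_le_mul_of_nonneg_left hCs hkr.le
          _ = (k * s) * Ph s θ F := by ring
          _ ≤ (n / 4) * Ph s θ F := mul_le_mul_of_nonneg_right (by linarith) hP.le
          _ = _ := by ring
      exact le_of_mul_le_mul_left h3 hnr
  have hcost : ∑ x ∈ G, c x ≤ Ph s θ F / 2 := by
    rw [hG, Finset.sum_union hdis]
    linarith
  have hkey := touch_le s hθ F G
  have hres : Ph s θ F / 2 ≤ ∑ S ∈ (covs s F).filter (fun S => Disjoint G S), θ ^ S.card := by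
    rw [← hc] at hkey
    linarith
  refine ⟨G, mem_legal.2 ⟨hGk, ?_, hhit⟩, hres⟩
  -- G is not in F
  intro hGF
  have h0 : (covs s F).filter (fun S => Disjoint G S) = ∅ := by
    rw [Finset.filter_eq_empty_iff]
    intro S hS hd
    obtain ⟨x, hx⟩ := (mem_covs.1 hS).2.2 G hGF
    rw [mem_inter] at hx
    exact Finset.disjoint_left.1 hd hx.2 hx.1
  rw [h0, Finset.sum_empty] at hres
  linarith

end Pool.Agent.MP_a71bf8_lb
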